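import Pool.Agent.TH498.AR.Fin

/-!
# The asymptotic number of abc triples by radical

For every `M > 1/3` the number of abc triples with `rad (abc) ≤ X` which satisfy Oesterlé's
inequality `c < rad (abc) ^ M` is asymptotic to `κ X ^ (2/3)` with one and the same `κ > 0`.

The small triples (`c ≤ X ^ (1/3 + η)`) are counted by lattice points below the curve
`a b (a + b) = w X` with given repeated part `w = abc / rad (abc)`, with a bound for the tail
`w > W` that is uniform in `X`; the larger ones are negligible by the bounds for the exceptional set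
of the abc conjecture of the starting library (`W221.ABC`, a saving over the trivial exponent
`2 λ / 3` for every `λ < 3`).
-/

set_option autoImplicit false

namespace Pool.Agent.Results.MP_2ec8a3_nt.AsymptoticByRadical

open Filter Topology

/-- the product of the primes dividing `n` -/
def radical (n : ℕ) : ℕ := ∏ p ∈ n.primeFactors, p

/-- the abc triples `(a, b, a + b)`, `a ≤ b`, written `(a, b)`, with `rad (abc) ≤ X` and
`c < rad (abc) ^ M` -/
def oesterle (M X : ℝ) : Set (ℕ × ℕ) :=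
  {p | 0 < p.1 ∧ p.1 ≤ p.2 ∧ Nat.Coprime p.1 p.2 ∧
    (radical (p.1 * p.2 * (p.1 + p.2)) : ℝ) ≤ X ∧
    ((p.1 + p.2 : ℕ) : ℝ) < (radical (p.1 * p.2 * (p.1 + p.2)) : ℝ) ^ M}

/-- the abc triples with `rad (abc) ≤ X` and `c ≤ Z` -/
def upTo (X Z : ℝ) : Set (ℕ × ℕ) :=
  {p | 0 < p.1 ∧ p.1 ≤ p.2 ∧ Nat.Coprime p.1 p.2 ∧
    (radical (p.1 * p.2 * (p.1 + p.2)) : ℝ) ≤ X ∧ ((p.1 + p.2 : ℕ) : ℝ) ≤ Z}

/-- **The asymptotic formula.** (1) There is `κ > 0` such that for every `M > 1/3` the number of the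
triples with `rad (abc) ≤ X` and `c < rad (abc) ^ M` is asymptotic to `κ X ^ (2/3)`; (2) the same
for the triples with `rad (abc) ≤ X` and `c ≤ X ^ K`, for every `K > 1/3`. (3) Among these at most
`C X ^ (2/3 - η/2)` have `c ≥ X ^ (1/3 + η)`. -/
theorem result :
    (∀ M X : ℝ, 0 < M → (oesterle M X).Finite) ∧ (∀ X Z : ℝ, (upTo X Z).Finite) ∧
    (∃ κ : ℝ, 0 < κ ∧
      (∀ M : ℝ, 1 / 3 < M →
        Tendsto (fun X : ℝ => ((oesterle M X).ncard : ℝ) / X ^ ((2 : ℝ) / 3)) atTop (𝓝 κ)) ∧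
      (∀ K : ℝ, 1 / 3 < K →
        Tendsto (fun X : ℝ => ((upTo X (X ^ K)).ncard : ℝ) / X ^ ((2 : ℝ) / 3)) atTop (𝓝 κ))) ∧
    (∀ K η : ℝ, 0 < η → η ≤ 2 / 21 → ∃ C : ℝ, 0 < C ∧ ∀ X : ℝ, 1 ≤ X →
      (({p ∈ upTo X (X ^ K) | X ^ (1 / 3 + η) ≤ ((p.1 + p.2 : ℕ) : ℝ)}.ncard : ℕ) : ℝ) ≤
        C * X ^ (2 / 3 - η / 2)) :=
  ⟨fun M X hM => (Pool.Agent.TH498.AR.TT_finite X (X ^ M)).subset
      (Pool.Agent.TH498.AR.RR_sub hM),
    fun X Z => Pool.Agent.TH498.AR.TT_finite X Z,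
    Pool.Agent.TH498.AR.final,
    fun K η h1 h2 => Pool.Agent.TH498.AR.large_set K η h1 h2⟩

end Pool.Agent.Results.MP_2ec8a3_nt.AsymptoticByRadical
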