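import Pool.Agent.TH867.SM.Fam

/-! abc triples of any height whose primes lie in a given finite set of primes. -/

set_option autoImplicit false

namespace Pool.Agent.Results.MP_2ec8a3_nt.GivenPrimes

/-- the abc triples `(a, b, a + b)`, written `(a, b)`: coprime `1 ≤ a ≤ b`, the product of the
primes dividing `a b (a + b)` at most `X`, each of these primes in `P` -/
def triples (X : ℝ) (P : Finset ℕ) : Set (ℕ × ℕ) :=
  {p | 0 < p.1 ∧ p.1 ≤ p.2 ∧ Nat.Coprime p.1 p.2 ∧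
    ((∏ q ∈ (p.1 * p.2 * (p.1 + p.2)).primeFactors, q : ℕ) : ℝ) ≤ X ∧
    ∀ q ∈ (p.1 * p.2 * (p.1 + p.2)).primeFactors, q ∈ P}

/-- the squarefree integers `1 ≤ m ≤ Z` all of whose prime factors lie in `P` -/
noncomputable def products (P : Finset ℕ) (Z : ℝ) : Finset ℕ :=
  (Finset.Icc 1 ⌊Z⌋₊).filter fun m => Squarefree m ∧ ∀ p ∈ m.primeFactors, p ∈ P

/-- the triple of a pair -/
def toT (p : ℕ × ℕ) : Fin 3 → ℕ := ![p.1, p.2, p.1 + p.2]

open Pool.Agent.TH867.SR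

theorem toT_inj : Function.Injective toT := by
  intro p q h
  have h0 := congrFun h 0
  have h1 := congrFun h 1
  simp only [toT, Matrix.cons_val_zero, Matrix.cons_val_one] at h0 h1
  exact Prod.ext h0 h1

theorem toT_tr {X : ℝ} {P : Finset ℕ} {p : ℕ × ℕ} (hp : p ∈ triples X P) :
    Tr (toT p) ∧ rr (toT p) 0 + rr (toT p) 1 + rr (toT p) 2 ≤ Real.log X ∧
      (∀ q ∈ (N3 (toT p)).primeFactors, q ∈ P) := by
  obtain ⟨h1, h2, h3, h4, h5⟩ := hp
  have ht : Tr (toT p) := ⟨h1, h2, h3, rfl⟩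
  refine ⟨ht, ?_, h5⟩
  rw [← rr_sum ht, ← log_prod_primes fun q hq => Nat.prime_of_mem_primeFactors hq]
  refine Real.log_le_log ?_ h4
  exact_mod_cast Finset.prod_pos fun q hq => (Nat.prime_of_mem_primeFactors hq).pos

theorem triples_finite {X : ℝ} (hX : 1 ≤ X) (P : Finset ℕ) : (triples X P).Finite := by
  obtain ⟨H, hH⟩ : ∃ H, H = Real.exp (Real.exp (3000 * (1 + Real.log X) ^ 6)) := ⟨_, rfl⟩
  refine Set.Finite.subset (Finset.finite_toSet
    ((Finset.range (⌊H⌋₊ + 1)) ×ˢ (Finset.range (⌊H⌋₊ + 1)))) ?_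
  intro p hp
  obtain ⟨a1, a2, -⟩ := toT_tr hp
  obtain ⟨h1, h2, _⟩ := hp
  have h5 : Real.log ((p.1 + p.2 : ℕ) : ℝ) ≤ Real.exp (3000 * (1 + Real.log X) ^ 6) :=
    Pool.Agent.TH867.SM.height_le a1 hX a2
  have h6 : p.1 + p.2 ≤ ⌊H⌋₊ := by
    refine Nat.le_floor ?_
    rw [hH, ← Real.log_le_iff_le_exp (by exact_mod_cast (by omega : 0 < p.1 + p.2))]
    exact h5
  simp only [Finset.coe_product, Finset.coe_range, Set.mem_prod, Set.mem_Iio]
  omega

theorem result : ∀ ε : ℝ, 0 < ε → ∃ C : ℝ, 0 < C ∧ ∀ X y : ℝ, 1 ≤ X → 1 ≤ y →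
    ∀ P : Finset ℕ, (∀ p ∈ P, (p : ℝ) ≤ y) → (triples X P).Finite ∧
    ((triples X P).ncard : ℝ) ≤ C * X ^ ε * (products P (y * X ^ (2 / 3 + ε))).card := by
  classical
  intro ε hε
  obtain ⟨D, hD, hup⟩ := Pool.Agent.TH867.SM.all_upper ε hε
  refine ⟨D, hD, fun X y hX hy P hP => ?_⟩
  have hfin := triples_finite hX P
  refine ⟨hfin, ?_⟩
  have h1 := hup X y hX hy P hP (hfin.toFinset.image toT) (fun t ht => by
    obtain ⟨p, hp, rfl⟩ := Finset.mem_image.1 ht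
    exact toT_tr (hfin.mem_toFinset.1 hp))
  rwa [Finset.card_image_of_injective _ toT_inj, ← Set.ncard_eq_toFinset_card _ hfin] at h1

end Pool.Agent.Results.MP_2ec8a3_nt.GivenPrimes
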