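import Mathlib
import Pool.Agent.TH876.PW.Gap
import Pool.Agent.TH876.PW.Classes
import Pool.Agent.TH876.PW.Vanish
import Pool.Agent.TH876.PW.Choose
import Pool.Agent.TH876.PW.Core
import Pool.Agent.TH876.PW.Rads
import Pool.Agent.TH876.PW.Final

set_option autoImplicit false

/-! abc triples of any height one member of which is a perfect `m`-th power: with radical at most
`X` and prime factors at most `y` there are at most `C y X ^ ((m + 1) / (2 m + 1) + ε)`. -/

namespace Pool.Agent.Results.MP_2ec8a3_nt.PerfectPowerMember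

open Pool.Agent.TH876.PW

/-- the abc triples `(a, b, a + b)`, written `(a, b)`: coprime `1 ≤ a ≤ b`, one of the three members
is the `m`-th power of an integer, the product of the primes dividing `a b (a + b)` is at most `X`,
each of these primes is at most `y` -/
def Triples (m : ℕ) (X y : ℝ) : Set (ℕ × ℕ) :=
  {p | 0 < p.1 ∧ p.1 ≤ p.2 ∧ Nat.Coprime p.1 p.2 ∧
    (∃ z : ℕ, p.1 = z ^ m ∨ p.2 = z ^ m ∨ p.1 + p.2 = z ^ m) ∧
    ((∏ q ∈ (p.1 * p.2 * (p.1 + p.2)).primeFactors, q : ℕ) : ℝ) ≤ X ∧
    ∀ q ∈ (p.1 * p.2 * (p.1 + p.2)).primeFactors, (q : ℝ) ≤ y}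

/-- For every `m ≥ 2` and `ε > 0` there is `C` such that for all `X, y ≥ 1` there are at most
`C y X ^ ((m + 1) / (2 m + 1) + ε)` abc triples, of any height, with radical at most `X` and prime
factors at most `y`, one member of which is a perfect `m`-th power. -/
theorem result (m : ℕ) (ε : ℝ) (hm : 2 ≤ m) (hε : 0 < ε) :
    ∃ C : ℝ, ∀ X y : ℝ, 1 ≤ X → 1 ≤ y → (Triples m X y).Finite ∧
      ((Triples m X y).ncard : ℝ) ≤ C * y * X ^ (((m : ℝ) + 1) / (2 * m + 1) + ε) :=
  final (threeRad (core (gap divis vanish) classes) choose) m ε hm hε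

end Pool.Agent.Results.MP_2ec8a3_nt.PerfectPowerMember
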