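import Pool.Agent.TH867.SB.Ref
import Pool.Agent.TH867.SB.LbA

/-! The abc triples of all heights with radical at most `X`, a member of which has radical at most
`A` (for instance pairs of consecutive integers): their number is `√(A X)` up to `X ^ ε`. -/

set_option autoImplicit false

namespace Pool.Agent.Results.MP_2ec8a3_nt.SmallMemberAllHeights

/-- the product of the primes dividing `n` -/
def radical (n : ℕ) : ℕ := ∏ q ∈ n.primeFactors, q

/-- the abc triples `(a, b, a + b)`, written `(a, b)`: coprime `1 ≤ a ≤ b`, the radical of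
`a b (a + b)` at most `X`, and the radical of one of `a`, `b`, `a + b` at most `A`; there is no
condition on the size of `a + b` -/
def triples (X A : ℝ) : Set (ℕ × ℕ) :=
  {p | 0 < p.1 ∧ p.1 ≤ p.2 ∧ Nat.Coprime p.1 p.2 ∧
    ((radical (p.1 * p.2 * (p.1 + p.2)) : ℕ) : ℝ) ≤ X ∧
    ∃ m ∈ ({p.1, p.2, p.1 + p.2} : Finset ℕ), (radical m : ℝ) ≤ A}

/-- the triple of a pair -/
def toT (p : ℕ × ℕ) : Fin 3 → ℕ := ![p.1, p.2, p.1 + p.2]

open Pool.Agent.TH867.SR

theorem toT_inj : Function.Injective toT := by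
  intro p q h
  have h0 := congrFun h 0
  have h1 := congrFun h 1
  simp only [toT, Matrix.cons_val_zero, Matrix.cons_val_one] at h0 h1
  exact Prod.ext h0 h1

theorem radical_pos (n : ℕ) : 0 < radical n :=
  Finset.prod_pos fun _ hq => (Nat.prime_of_mem_primeFactors hq).pos

theorem rr_eq (p : ℕ × ℕ) (j : Fin 3) : rr (toT p) j = Real.log (radical (toT p j)) :=
  (log_prod_primes fun _ hq => Nat.prime_of_mem_primeFactors hq).symm

theorem toT_tr {X A : ℝ} {p : ℕ × ℕ} (hp : p ∈ triples X A) :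
    Tr (toT p) ∧ rr (toT p) 0 + rr (toT p) 1 + rr (toT p) 2 ≤ Real.log X := by
  obtain ⟨h1, h2, h3, h4, -⟩ := hp
  have ht : Tr (toT p) := ⟨h1, h2, h3, rfl⟩
  refine ⟨ht, ?_⟩
  rw [← rr_sum ht, ← log_prod_primes fun q hq => Nat.prime_of_mem_primeFactors hq]
  refine Real.log_le_log ?_ h4
  exact_mod_cast Finset.prod_pos fun q hq => (Nat.prime_of_mem_primeFactors hq).pos

theorem toT_small {X A : ℝ} {p : ℕ × ℕ} (hp : p ∈ triples X A) :
    ∃ i, rr (toT p) i ≤ Real.log A := by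
  obtain ⟨-, -, -, -, m, hm, h5⟩ := hp
  have hlog : Real.log (radical m : ℝ) ≤ Real.log A :=
    Real.log_le_log (by exact_mod_cast radical_pos m) h5
  simp only [Finset.mem_insert, Finset.mem_singleton] at hm
  rcases hm with rfl | rfl | rfl
  · exact ⟨0, by rw [rr_eq]; exact hlog⟩
  · exact ⟨1, by rw [rr_eq]; exact hlog⟩
  · exact ⟨2, by rw [rr_eq]; exact hlog⟩

theorem triples_finite {X : ℝ} (hX : 1 ≤ X) (A : ℝ) : (triples X A).Finite := by
  obtain ⟨H, hH⟩ : ∃ H, H = Real.exp (3000 * (1 + Real.log X) ^ 6) := ⟨_, rfl⟩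
  refine Set.Finite.subset (Finset.finite_toSet
    ((Finset.range (⌊Real.exp H⌋₊ + 1)) ×ˢ (Finset.range (⌊Real.exp H⌋₊ + 1)))) ?_
  intro p hp
  have h5 := Pool.Agent.TH867.SM.height_le (toT_tr hp).1 hX (toT_tr hp).2
  rw [← hH] at h5
  obtain ⟨h1, h2, _, _⟩ := hp
  have h7 : toT p 2 = p.1 + p.2 := rfl
  rw [h7] at h5
  have h6 : p.1 + p.2 ≤ ⌊Real.exp H⌋₊ := by
    refine Nat.le_floor ?_
    rw [← Real.log_le_iff_le_exp (by exact_mod_cast (by omega : 0 < p.1 + p.2))]
    exact h5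
  simp only [Finset.coe_product, Finset.coe_range, Set.mem_prod, Set.mem_Iio]
  omega

/-- **abc triples of all heights, a member of which has radical at most `A`** -/
theorem result : ∀ ε : ℝ, 0 < ε → ∃ C : ℝ, 0 < C ∧
    (∀ X A : ℝ, 1 ≤ X → 1 ≤ A →
      (triples X A).Finite ∧
      ((triples X A).ncard : ℝ) ≤ C * X ^ ε * Real.sqrt (A * X)) ∧
    (∀ X A : ℝ, 2 ≤ X → 1 ≤ A → A ^ 3 ≤ X →
      Real.sqrt (A * X) / 96 ≤ ((triples X A).ncard : ℝ)) := by
  classical
  intro ε hε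
  obtain ⟨D, hD, hup⟩ := Pool.Agent.TH867.SB.ref_all ε hε
  refine ⟨D, hD, fun X A hX hA => ?_, fun X A hX hA hAX => ?_⟩
  · have hfin := triples_finite hX A
    refine ⟨hfin, ?_⟩
    have h1 := hup X A hX hA (hfin.toFinset.image toT) (fun t ht => by
      obtain ⟨p, hp, rfl⟩ := Finset.mem_image.1 ht
      have hp' := hfin.mem_toFinset.1 hp
      exact ⟨(toT_tr hp').1, (toT_tr hp').2, toT_small hp'⟩)
    rw [Finset.card_image_of_injective _ toT_inj, ← Set.ncard_eq_toFinset_card _ hfin] at h1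
    rw [Real.sqrt_eq_rpow]
    exact h1
  · obtain ⟨G, hG, hcard⟩ := Pool.Agent.TH867.SB.Lb.lower X A hX hA hAX
    have hfin := triples_finite (by linarith : 1 ≤ X) A
    have hsub : (G : Set (ℕ × ℕ)) ⊆ triples X A := by
      intro p hp
      obtain ⟨h1, h2, h3, h4, h5, h6⟩ := hG p (Finset.mem_coe.1 hp)
      have hle : ∀ n : ℕ, 0 < n → (radical n : ℝ) ≤ n := fun n hn => by
        exact_mod_cast Nat.le_of_dvd hn (Nat.prod_primeFactors_dvd _)
      refine ⟨h1, h2, h3, ?_, p.1, Finset.mem_insert_self _ _, (hle _ h1).trans h4⟩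
      refine (hle _ ?_).trans h5
      have : 0 < p.2 := by omega
      positivity
    have h3 := Set.ncard_le_ncard hsub hfin
    rw [Set.ncard_coe_finset] at h3
    have h4 : (G.card : ℝ) ≤ ((triples X A).ncard : ℝ) := by exact_mod_cast h3
    linarith

end Pool.Agent.Results.MP_2ec8a3_nt.SmallMemberAllHeights
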